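import Pool.Agent.X194.FK.Hyp

open Filter Topology Set

namespace Pool.Agent.X194.FK

variable {V : Type}

/-- Anchored Gromov hyperbolicity: for every vertex `v` there is a `δ` such that all geodesic
triangles passing through `v` are `δ`-thin. -/
def AnchoredHyperbolic (Γ : SimpleGraph V) : Prop :=
  ∀ v, ∃ δ : ℕ, ∀ (x y z : V) (a : Γ.Walk y z) (b : Γ.Walk z x) (c : Γ.Walk x y),
    IsGeod Γ a → IsGeod Γ b → IsGeod Γ c → (v ∈ a.support ∨ v ∈ b.support ∨ v ∈ c.support) →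
      Thin Γ δ a b c

section
variable {Γ : SimpleGraph V} (C : Γ.ConnectedComponent)

theorem mem_supp_of_walk {x y : V} (hx : x ∈ C.supp) (p : Γ.Walk x y) :
    ∀ w ∈ p.support, w ∈ C.supp := by
  intro w hw
  obtain ⟨k, hk, _⟩ := SimpleGraph.Walk.mem_support_iff_exists_getVert.mp hw
  have h1 : Γ.Reachable x w := by rw [← hk]; exact (p.take k).reachable
  rw [SimpleGraph.ConnectedComponent.mem_supp_iff] at hx ⊢
  rw [← hx]
  exact SimpleGraph.ConnectedComponent.sound h1.symm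

/-- lift a walk to the component -/
def liftW {x y : V} (hx : x ∈ C.supp) (p : Γ.Walk x y) :
    (Γ.induce C.supp).Walk ⟨x, hx⟩ ⟨y, mem_supp_of_walk C hx p _ p.end_mem_support⟩ :=
  p.induce C.supp (mem_supp_of_walk C hx p)

theorem length_liftW {x y : V} (hx : x ∈ C.supp) (p : Γ.Walk x y) :
    (liftW C hx p).length = p.length := by
  have h := congrArg SimpleGraph.Walk.length
    (SimpleGraph.Walk.map_induce p (mem_supp_of_walk C hx p))
  rw [SimpleGraph.Walk.length_map] at h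
  exact h

theorem mem_liftW {x y : V} (hx : x ∈ C.supp) (p : Γ.Walk x y) (w : C.supp) :
    w ∈ (liftW C hx p).support ↔ (w : V) ∈ p.support := by
  unfold liftW
  rw [SimpleGraph.Walk.support_induce]
  simp

theorem dist_comp {x y : V} (hx : x ∈ C.supp) (hy : y ∈ C.supp) :
    (Γ.induce C.supp).dist ⟨x, hx⟩ ⟨y, hy⟩ = Γ.dist x y := by
  have hr : Γ.Reachable x y := by
    rw [SimpleGraph.ConnectedComponent.mem_supp_iff] at hx hy
    exact SimpleGraph.ConnectedComponent.exact (hx.trans hy.symm)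
  obtain ⟨p, hp⟩ := hr.exists_walk_length_eq_dist
  have h1 := SimpleGraph.dist_le (liftW C hx p)
  rw [length_liftW, hp] at h1
  have hr2 : (Γ.induce C.supp).Reachable ⟨x, hx⟩ ⟨y, hy⟩ := (liftW C hx p).reachable
  obtain ⟨q, hq⟩ := hr2.exists_walk_length_eq_dist
  have h2 := SimpleGraph.dist_le (q.map (SimpleGraph.Embedding.induce C.supp).toHom)
  rw [SimpleGraph.Walk.length_map, hq] at h2
  exact le_antisymm h1 h2

/-- A vertex through which fat geodesic triangles pass makes its cluster non-anchored. -/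
theorem not_anchored (v : V) (hv : v ∈ C.supp)
    (h : ∀ δ : ℕ, ∃ (y z : V) (a : Γ.Walk y z) (b : Γ.Walk z v) (c : Γ.Walk v y),
      IsGeod Γ a ∧ IsGeod Γ b ∧ IsGeod Γ c ∧ ¬ Thin Γ δ a b c) :
    ¬ AnchoredHyperbolic C.toSimpleGraph := by
  intro hA
  obtain ⟨δ, hδ⟩ := hA ⟨v, hv⟩
  obtain ⟨y, z, a, b, c, ha, hb, hc, hthin⟩ := h δ
  have hy : y ∈ C.supp := mem_supp_of_walk C hv c _ c.end_mem_support
  have hz : z ∈ C.supp := mem_supp_of_walk C hy a _ a.end_mem_support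
  have ha' : IsGeod (Γ.induce C.supp) (liftW C hy a) := by
    unfold IsGeod; rw [length_liftW, dist_comp]; exact ha
  have hb' : IsGeod (Γ.induce C.supp) (liftW C hz b) := by
    unfold IsGeod; rw [length_liftW, dist_comp]; exact hb
  have hc' : IsGeod (Γ.induce C.supp) (liftW C hv c) := by
    unfold IsGeod; rw [length_liftW, dist_comp]; exact hc
  have hT := hδ ⟨v, hv⟩ ⟨y, hy⟩ ⟨z, hz⟩ (liftW C hy a) (liftW C hz b) (liftW C hv c) ha' hb' hc'
    (Or.inr (Or.inr (SimpleGraph.Walk.start_mem_support _)))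
  apply hthin
  obtain ⟨h1, h2, h3⟩ := hT
  refine ⟨fun u hu => ?_, fun u hu => ?_, fun u hu => ?_⟩
  · have hu' : u ∈ C.supp := mem_supp_of_walk C hy a u hu
    obtain ⟨⟨w, hw⟩, hw1, hw2⟩ := h1 ⟨u, hu'⟩ ((mem_liftW C hy a _).mpr hu)
    have hw2' : (Γ.induce C.supp).dist ⟨u, hu'⟩ ⟨w, hw⟩ ≤ δ := hw2
    rw [dist_comp] at hw2'
    exact ⟨w, hw1.imp (mem_liftW C hz b _).mp (mem_liftW C hv c _).mp, hw2'⟩
  · have hu' : u ∈ C.supp := mem_supp_of_walk C hz b u hu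
    obtain ⟨⟨w, hw⟩, hw1, hw2⟩ := h2 ⟨u, hu'⟩ ((mem_liftW C hz b _).mpr hu)
    have hw2' : (Γ.induce C.supp).dist ⟨u, hu'⟩ ⟨w, hw⟩ ≤ δ := hw2
    rw [dist_comp] at hw2'
    exact ⟨w, hw1.imp (mem_liftW C hv c _).mp (mem_liftW C hy a _).mp, hw2'⟩
  · have hu' : u ∈ C.supp := mem_supp_of_walk C hv c u hu
    obtain ⟨⟨w, hw⟩, hw1, hw2⟩ := h3 ⟨u, hu'⟩ ((mem_liftW C hv c _).mpr hu)
    have hw2' : (Γ.induce C.supp).dist ⟨u, hu'⟩ ⟨w, hw⟩ ≤ δ := hw2
    rw [dist_comp] at hw2'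
    exact ⟨w, hw1.imp (mem_liftW C hy a _).mp (mem_liftW C hz b _).mp, hw2'⟩

end

end Pool.Agent.X194.FK
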