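import Pool.Agent.X194.FK.Gr

open Filter Topology Set

namespace Pool.Agent.X194.FK

open Vx

/-- The open subgraph of a configuration. -/
def openG {V : Type} (G : SimpleGraph V) (ω : Sym2 V → Bool) : SimpleGraph V where
  Adj u v := G.Adj u v ∧ ω s(u, v) = true
  symm := ⟨fun u v h => ⟨h.1.symm, by rw [Sym2.eq_swap]; exact h.2⟩⟩
  loopless := ⟨fun u h => h.1.ne rfl⟩

/-- spine open at level `n` -/
def SpOK (ω : Sym2 Vx → Bool) (n : ℕ) : Prop :=
  ∃ i, ω s(sp n, mid n i) = true ∧ ω s(mid n i, sp (n + 1)) = true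

/-- the `i`-th ladder at level `n` is an open cycle with closed rungs -/
structure Cyc (ω : Sym2 Vx → Bool) (n : ℕ) (i : Fin (M n)) : Prop where
  att : ∀ s, ω s(sp n, lad n i s ⟨0, Nat.succ_pos n⟩) = true
  rail : ∀ s (j : ℕ) (h : j + 1 < n + 1),
    ω s(lad n i s ⟨j, Nat.lt_of_succ_lt h⟩, lad n i s ⟨j + 1, h⟩) = true
  rung : ∀ j : Fin (n + 1), ω s(lad n i false j, lad n i true j) = decide ((j : ℕ) = n)

def LadOK (ω : Sym2 Vx → Bool) (n : ℕ) : Prop := ∃ i, Cyc ω n i

/-- potential -/
def pot (n : ℕ) (i : Fin (M n)) (F : Bool → ℕ → ℤ) (out : Vx → ℤ) : Vx → ℤ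
  | lad m k s j => if m = n ∧ (k : ℕ) = i then F s j else out (lad m k s j)
  | sp m => out (sp m)
  | mid m k => out (mid m k)

theorem pot_lad (n : ℕ) (i : Fin (M n)) (F : Bool → ℕ → ℤ) (out : Vx → ℤ) (s : Bool)
    (j : Fin (n + 1)) : pot n i F out (lad n i s j) = F s j := by
  simp [pot]

section
variable (ω : Sym2 Vx → Bool) (n : ℕ) (i : Fin (M n)) (hcyc : Cyc ω n i)

include hcyc in
theorem pot_lip (F : Bool → ℕ → ℤ) (out : Vx → ℤ)
    (hout : ∀ u v, (openG GG ω).Adj u v → |out u - out v| ≤ 1)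
    (hF : ∀ s j, j + 1 < n + 1 → |F s j - F s (j + 1)| ≤ 1)
    (htop : |F false n - F true n| ≤ 1) (hbot : ∀ s, |out (sp n) - F s 0| ≤ 1) :
    ∀ u v, (openG GG ω).Adj u v → |pot n i F out u - pot n i F out v| ≤ 1 := by
  have key : ∀ u v, Rel u v → ω s(u, v) = true → |pot n i F out u - pot n i F out v| ≤ 1 := by
    intro u v h ho
    have ho' : |out u - out v| ≤ 1 := hout u v ⟨Or.inl h, ho⟩
    cases h with
    | m1 m k => exact ho'
    | m2 m k => exact ho'
    | l0 m k s =>
      by_cases hmk : m = n ∧ (k : ℕ) = i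
      · have h1 : pot n i F out (lad m k s ⟨0, Nat.succ_pos m⟩) = F s 0 := by
          simp [pot, hmk]
        rw [h1]
        have h2 : pot n i F out (sp m) = out (sp n) := by simp [pot, hmk.1]
        rw [h2]
        exact hbot s
      · have h1 : pot n i F out (lad m k s ⟨0, Nat.succ_pos m⟩) =
            out (lad m k s ⟨0, Nat.succ_pos m⟩) := by
          simp only [pot, if_neg hmk]
        rw [h1]; exact ho'
    | rail m k s j hj =>
      by_cases hmk : m = n ∧ (k : ℕ) = i
      · have h1 : pot n i F out (lad m k s ⟨j, Nat.lt_of_succ_lt hj⟩) = F s j := by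
          simp [pot, hmk]
        have h2 : pot n i F out (lad m k s ⟨j + 1, hj⟩) = F s (j + 1) := by
          simp [pot, hmk]
        rw [h1, h2]
        exact hF s j (by rw [← hmk.1]; exact hj)
      · have h1 : pot n i F out (lad m k s ⟨j, Nat.lt_of_succ_lt hj⟩) =
            out (lad m k s ⟨j, Nat.lt_of_succ_lt hj⟩) := by
          simp only [pot, if_neg hmk]
        have h2 : pot n i F out (lad m k s ⟨j + 1, hj⟩) = out (lad m k s ⟨j + 1, hj⟩) := by
          simp only [pot, if_neg hmk]
        rw [h1, h2]; exact ho'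
    | rung m k j =>
      by_cases hmk : m = n ∧ (k : ℕ) = i
      · obtain ⟨rfl, h3⟩ := hmk
        have : k = i := Fin.ext h3
        subst this
        rw [pot_lad, pot_lad]
        have h4 := hcyc.rung j
        rw [ho] at h4
        have h5 : (j : ℕ) = m := of_decide_eq_true h4.symm
        rw [h5]; exact htop
      · simp only [pot, if_neg hmk]
        exact ho'
  rintro u v ⟨h | h, ho⟩
  · exact key u v h ho
  · rw [abs_sub_comm]
    exact key v u h (by rw [Sym2.eq_swap]; exact ho)

include hcyc in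
theorem rail_walk (s : Bool) (k : ℕ) : ∀ (j : ℕ) (h : j + k < n + 1),
    ∃ p : (openG GG ω).Walk (lad n i s ⟨j, by omega⟩) (lad n i s ⟨j + k, h⟩), p.length = k ∧
      ∀ w ∈ p.support, ∃ j' : Fin (n + 1), w = lad n i s j' ∧ (j' : ℕ) ≤ j + k := by
  induction k with
  | zero =>
    intro j h
    refine ⟨SimpleGraph.Walk.nil, rfl, fun w hw => ?_⟩
    rw [SimpleGraph.Walk.support_nil, List.mem_singleton] at hw
    exact ⟨⟨j, by omega⟩, hw, le_rfl⟩
  | succ k ih =>
    intro j h
    obtain ⟨p, hp, hs⟩ := ih j (by omega)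
    have hadj : (openG GG ω).Adj (lad n i s ⟨j + k, by omega⟩) (lad n i s ⟨j + (k + 1), h⟩) :=
      ⟨adj_of_rel (Rel.rail n i s (j + k) h), hcyc.rail s (j + k) h⟩
    refine ⟨p.concat hadj, by rw [SimpleGraph.Walk.length_concat, hp], fun w hw => ?_⟩
    rw [SimpleGraph.Walk.support_concat, List.mem_append, List.mem_singleton] at hw
    rcases hw with hw | hw
    · obtain ⟨j', h1, h2⟩ := hs w hw
      exact ⟨j', h1, by omega⟩
    · exact ⟨_, hw, le_rfl⟩

include hcyc in
theorem att_walk (s : Bool) (j : ℕ) : ∀ (h : j < n + 1),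
    ∃ p : (openG GG ω).Walk (sp n) (lad n i s ⟨j, h⟩), p.length = j + 1 ∧
      ∀ w ∈ p.support, w = sp n ∨ ∃ j' : Fin (n + 1), w = lad n i s j' ∧ (j' : ℕ) ≤ j := by
  induction j with
  | zero =>
    intro h
    have hadj : (openG GG ω).Adj (sp n) (lad n i s ⟨0, h⟩) :=
      ⟨adj_of_rel (Rel.l0 n i s), hcyc.att s⟩
    refine ⟨hadj.toWalk, rfl, fun w hw => ?_⟩
    rw [SimpleGraph.Walk.support_cons, SimpleGraph.Walk.support_nil, List.mem_cons,
      List.mem_singleton] at hw
    rcases hw with hw | hw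
    · left; exact hw
    · right; exact ⟨_, hw, le_rfl⟩
  | succ j ih =>
    intro h
    obtain ⟨p, hp, hs⟩ := ih (by omega)
    have hadj : (openG GG ω).Adj (lad n i s ⟨j, by omega⟩) (lad n i s ⟨j + 1, h⟩) :=
      ⟨adj_of_rel (Rel.rail n i s j h), hcyc.rail s j h⟩
    refine ⟨p.concat hadj, by rw [SimpleGraph.Walk.length_concat, hp], fun w hw => ?_⟩
    rw [SimpleGraph.Walk.support_concat, List.mem_append, List.mem_singleton] at hw
    rcases hw with hw | hw
    · rcases hs w hw with h1 | ⟨j', h1, h2⟩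
      · left; exact h1
      · right; exact ⟨j', h1, by omega⟩
    · right; exact ⟨_, hw, le_rfl⟩

end

theorem dist_adj {V : Type} {Γ : SimpleGraph V} (x u v : V) (h : Γ.Adj u v) :
    |(Γ.dist x u : ℤ) - Γ.dist x v| ≤ 1 := by
  have key : ∀ u v, Γ.Adj u v → Γ.dist x v ≤ Γ.dist x u + 1 := by
    intro u v h
    by_cases hr : Γ.Reachable x u
    · obtain ⟨p, hp⟩ := hr.exists_walk_length_eq_dist
      have := SimpleGraph.dist_le (p.concat h)
      rw [SimpleGraph.Walk.length_concat, hp] at this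
      exact this
    · have hr' : ¬ Γ.Reachable x v := fun h' => hr (h'.trans h.symm.reachable)
      rw [SimpleGraph.dist_eq_zero_of_not_reachable hr']
      omega
  have h1 := key u v h
  have h2 := key v u h.symm
  rw [abs_le]
  omega

/-- The fat triangle. -/
theorem fat_triangle (ω : Sym2 Vx → Bool) (N t n : ℕ) (hn : n = t + t) (ht : 1 ≤ t)
    (i : Fin (M n)) (hcyc : Cyc ω n i) (hr : (openG GG ω).Reachable (sp N) (sp n)) (δ : ℕ)
    (hδ : δ < t) :
    ∃ (y z : Vx) (a : (openG GG ω).Walk y z) (b : (openG GG ω).Walk z (sp N))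
      (c : (openG GG ω).Walk (sp N) y), IsGeod _ a ∧ IsGeod _ b ∧ IsGeod _ c ∧
        ¬ Thin (openG GG ω) δ a b c := by
  set Γ := openG GG ω with hΓ
  set x : Vx := sp N with hx
  obtain ⟨p0, hp0⟩ := hr.exists_walk_length_eq_dist
  obtain ⟨q1, hq1, hs1⟩ := att_walk ω n i hcyc false t (by omega)
  obtain ⟨q2, hq2, hs2⟩ := att_walk ω n i hcyc true t (by omega)
  obtain ⟨r1, hr1, -⟩ := rail_walk ω n i hcyc false t t (by omega)
  obtain ⟨r2, hr2, -⟩ := rail_walk ω n i hcyc true t t (by omega)
  have htop : Γ.Adj (lad n i false ⟨t + t, by omega⟩) (lad n i true ⟨t + t, by omega⟩) :=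
    ⟨adj_of_rel (Rel.rung n i _), by rw [hcyc.rung]; simp [hn]⟩
  -- potentials
  let f : Vx → ℤ := pot n i (fun _ j => (Γ.dist x (sp n) : ℤ) + j + 1) (fun u => Γ.dist x u)
  let g : Vx → ℤ := pot n i (fun s j => if s = false then |(j : ℤ) - t| else
    min ((t : ℤ) + j + 2) (3 * t + 1 - j)) (fun _ => (t : ℤ) + 1)
  let h : Vx → ℤ := pot n i (fun _ j => (2 * t : ℤ) - j) (fun _ => (2 * t : ℤ) + 1)
  have hf : ∀ u v, Γ.Adj u v → |f u - f v| ≤ 1 := by
    refine pot_lip ω n i hcyc _ _ (fun u v huv => dist_adj x u v huv) ?_ ?_ ?_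
    · intro s j _; push_cast; rw [abs_le]; omega
    · simp
    · intro s; push_cast; rw [abs_le]; omega
  have hg : ∀ u v, Γ.Adj u v → |g u - g v| ≤ 1 := by
    refine pot_lip ω n i hcyc _ _ (fun u v _ => by simp) ?_ ?_ ?_
    · intro s j hj
      cases s
      · simp only [if_true]
        push_cast
        rcases abs_cases ((j : ℤ) - t) with h1 | h1 <;>
          rcases abs_cases ((j : ℤ) + 1 - t) with h2 | h2 <;> rw [abs_le] <;> omega
      · simp only [reduceCtorEq, if_false]
        push_cast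
        rw [abs_le]; omega
    · simp only [if_true, reduceCtorEq, if_false, hn]
      push_cast
      rcases abs_cases ((t : ℤ) + t - t) with h1 | h1 <;> rw [abs_le] <;> omega
    · intro s
      cases s
      · simp only [if_true]
        push_cast
        rcases abs_cases ((0 : ℤ) - t) with h1 | h1 <;> rw [abs_le] <;> omega
      · simp only [reduceCtorEq, if_false]
        push_cast
        rw [abs_le]; omega
  have hh' : ∀ u v, Γ.Adj u v → |h u - h v| ≤ 1 := by
    refine pot_lip ω n i hcyc _ _ (fun u v _ => by simp) ?_ ?_ ?_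
    · intro s j _; push_cast; rw [abs_le]; omega
    · simp
    · intro s; push_cast; rw [abs_le]; omega
  have hfx : f x = 0 := by simp [f, pot, hx]
  -- the sides
  let y : Vx := lad n i false ⟨t, by omega⟩
  let z : Vx := lad n i true ⟨t, by omega⟩
  let a : Γ.Walk y z := r1.append (SimpleGraph.Walk.cons htop r2.reverse)
  let c : Γ.Walk x y := p0.append q1
  let b : Γ.Walk z x := (p0.append q2).reverse
  have hlc : c.length = Γ.dist x (sp n) + (t + 1) := by
    simp only [c, SimpleGraph.Walk.length_append, hp0, hq1]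
  have hlb : b.length = Γ.dist x (sp n) + (t + 1) := by
    simp only [b, SimpleGraph.Walk.length_reverse, SimpleGraph.Walk.length_append, hp0, hq2]
  have hla : a.length = t + (t + 1) := by
    simp only [a, SimpleGraph.Walk.length_append, SimpleGraph.Walk.length_cons,
      SimpleGraph.Walk.length_reverse, hr1, hr2]
  have hfy : f y = Γ.dist x (sp n) + t + 1 := pot_lad _ _ _ _ _ _
  have hfz : f z = Γ.dist x (sp n) + t + 1 := pot_lad _ _ _ _ _ _
  have hgy : g y = 0 := by
    have : g y = |((t : ℕ) : ℤ) - t| := pot_lad _ _ _ _ _ _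
    rw [this]; simp
  have hgz : g z = 2 * t + 1 := by
    have : g z = min ((t : ℤ) + (t : ℕ) + 2) (3 * t + 1 - (t : ℕ)) := pot_lad _ _ _ _ _ _
    rw [this]; omega
  have geo_c : IsGeod Γ c := by
    refine le_antisymm ?_ (SimpleGraph.dist_le c)
    have := dist_lip hf c.reachable
    rw [hfx, hfy] at this
    rw [hlc]
    rcases abs_le.mp this with ⟨h1, h2⟩
    omega
  have geo_b : IsGeod Γ b := by
    refine le_antisymm ?_ (SimpleGraph.dist_le b)
    have := dist_lip hf b.reachable
    rw [hfx, hfz] at this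
    rw [hlb]
    rcases abs_le.mp this with ⟨h1, h2⟩
    omega
  have geo_a : IsGeod Γ a := by
    refine le_antisymm ?_ (SimpleGraph.dist_le a)
    have := dist_lip hg a.reachable
    rw [hgy, hgz] at this
    rw [hla]
    rcases abs_le.mp this with ⟨h1, h2⟩
    omega
  -- support of the sides through `x`
  have hsp : h (sp n) = 2 * t + 1 := rfl
  have hlad : ∀ s (j' : Fin (n + 1)), (j' : ℕ) ≤ t → (t : ℤ) ≤ h (lad n i s j') := by
    intro s j' hj'
    have : h (lad n i s j') = 2 * t - ((j' : ℕ) : ℤ) := pot_lad _ _ _ _ _ _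
    rw [this]; omega
  have hp0s : ∀ w ∈ p0.support, (t : ℤ) ≤ h w := by
    intro w hw
    obtain ⟨k, hk, hkl⟩ := SimpleGraph.Walk.mem_support_iff_exists_getVert.mp hw
    have h1 := (geo_pt p0 hp0 hkl).1
    rw [hk] at h1
    have h2 : Γ.dist x w ≤ Γ.dist x (sp n) := by rw [h1, ← hp0]; exact hkl
    have hreach : Γ.Reachable x w := by
      rw [← hk]; exact (p0.take k).reachable
    have h3 := dist_lip hf hreach
    rw [hfx] at h3
    by_contra hcon
    have h4 : ∃ s j, w = lad n i s j := by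
      cases w with
      | sp m => exact absurd (show (t : ℤ) ≤ 2 * t + 1 by omega) hcon
      | mid m k => exact absurd (show (t : ℤ) ≤ 2 * t + 1 by omega) hcon
      | lad m k s j =>
        by_cases hmk : m = n ∧ (k : ℕ) = i
        · obtain ⟨h5, h6⟩ := hmk
          subst h5
          have : k = i := Fin.ext h6
          subst this
          exact ⟨s, j, rfl⟩
        · exfalso
          apply hcon
          have : h (lad m k s j) = 2 * t + 1 := by simp only [h, pot, if_neg hmk]
          rw [this]; omega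
    obtain ⟨s, j, rfl⟩ := h4
    have h5 : f (lad n i s j) = Γ.dist x (sp n) + ((j : ℕ) : ℤ) + 1 := pot_lad _ _ _ _ _ _
    rw [h5] at h3
    rcases abs_le.mp h3 with ⟨h6, h7⟩
    omega
  have hside : ∀ w, (w ∈ b.support ∨ w ∈ c.support) → (t : ℤ) ≤ h w := by
    intro w hw
    have hatt : ∀ s, (w = sp n ∨ ∃ j' : Fin (n + 1), w = lad n i s j' ∧ (j' : ℕ) ≤ t) →
        (t : ℤ) ≤ h w := by
      rintro s (rfl | ⟨j', rfl, hj'⟩)
      · rw [hsp]; omega
      · exact hlad s j' hj'
    rcases hw with hw | hw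
    · simp only [b, SimpleGraph.Walk.support_reverse, List.mem_reverse,
        SimpleGraph.Walk.mem_support_append_iff] at hw
      rcases hw with hw | hw
      · exact hp0s w hw
      · exact hatt true (hs2 w hw)
    · simp only [c, SimpleGraph.Walk.mem_support_append_iff] at hw
      rcases hw with hw | hw
      · exact hp0s w hw
      · exact hatt false (hs1 w hw)
  refine ⟨y, z, a, b, c, geo_a, geo_b, geo_c, fun hthin => ?_⟩
  have hu : lad n i false ⟨t + t, by omega⟩ ∈ a.support := by
    simp only [a, SimpleGraph.Walk.mem_support_append_iff]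
    left; exact SimpleGraph.Walk.end_mem_support _
  obtain ⟨w, hw, hd⟩ := hthin.1 _ hu
  have h1 := hside w hw
  have hhu : h (lad n i false ⟨t + t, by omega⟩) = 0 := by
    have : h (lad n i false ⟨t + t, by omega⟩) = 2 * t - ((t + t : ℕ) : ℤ) := pot_lad _ _ _ _ _ _
    rw [this]; push_cast; ring
  have hreach : Γ.Reachable (lad n i false ⟨t + t, by omega⟩) w := by
    have h2 : Γ.Reachable (lad n i false ⟨t + t, by omega⟩) z :=
      (SimpleGraph.Walk.cons htop r2.reverse).reachable
    rcases hw with hw | hw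
    · obtain ⟨k, hk, _⟩ := SimpleGraph.Walk.mem_support_iff_exists_getVert.mp hw
      exact h2.trans (hk ▸ (b.take k).reachable)
    · obtain ⟨k, hk, _⟩ := SimpleGraph.Walk.mem_support_iff_exists_getVert.mp hw
      exact (h2.trans b.reachable).trans (hk ▸ (c.take k).reachable)
  have h3 := dist_lip hh' hreach
  rw [hhu] at h3
  rcases abs_le.mp h3 with ⟨h4, h5⟩
  omega

theorem spine_reach (ω : Sym2 Vx → Bool) (N : ℕ) (h : ∀ n, N ≤ n → SpOK ω n) (k : ℕ) :
    (openG GG ω).Reachable (sp N) (sp (N + k)) := by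
  induction k with
  | zero => exact SimpleGraph.Reachable.refl _
  | succ k ih =>
    obtain ⟨i, h1, h2⟩ := h (N + k) (by omega)
    have e1 : (openG GG ω).Adj (sp (N + k)) (mid (N + k) i) := ⟨adj_of_rel (Rel.m1 _ _), h1⟩
    have e2 : (openG GG ω).Adj (mid (N + k) i) (sp (N + k + 1)) := ⟨adj_of_rel (Rel.m2 _ _), h2⟩
    exact ih.trans (e1.reachable.trans e2.reachable)

end Pool.Agent.X194.FK
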