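import Mathlib

open MeasureTheory Filter Topology Set

namespace Pool.Agent.X194.FK

variable {V : Type}

/-- the graph with vertex set `W` and edge set `ω` -/
def cg (W : Finset V) (ω : Finset (Sym2 V)) : SimpleGraph W where
  Adj u v := u ≠ v ∧ s(u.1, v.1) ∈ ω
  symm := ⟨fun u v h => ⟨h.1.symm, by rw [Sym2.eq_swap]; exact h.2⟩⟩
  loopless := ⟨fun u h => h.1 rfl⟩

/-- number of connected components of `(W, ω)` -/
noncomputable def comps (W : Finset V) (ω : Finset (Sym2 V)) : ℕ :=
  Nat.card (cg W ω).ConnectedComponent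

theorem cg_mono {W : Finset V} {ω ω' : Finset (Sym2 V)} (h : ω ⊆ ω') : cg W ω ≤ cg W ω' := by
  intro u v huv
  exact ⟨huv.1, h huv.2⟩

instance (W : Finset V) (ω : Finset (Sym2 V)) : Finite (cg W ω).ConnectedComponent :=
  Quot.finite _

theorem comps_anti {W : Finset V} {ω ω' : Finset (Sym2 V)} (h : ω ⊆ ω') :
    comps W ω' ≤ comps W ω := by
  refine Nat.card_le_card_of_surjective
    (SimpleGraph.ConnectedComponent.map (SimpleGraph.Hom.ofLE (cg_mono h))) ?_
  intro C
  induction C using SimpleGraph.ConnectedComponent.ind with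
  | h v => exact ⟨(cg W ω).connectedComponentMk v, rfl⟩

theorem reach_insert [DecidableEq V] {W : Finset V} {ω : Finset (Sym2 V)} {x y : W} {u v : W}
    (h : (cg W (insert s(x.1, y.1) ω)).Reachable u v) :
    (cg W ω).Reachable u v ∨ ((cg W ω).Reachable u x ∧ (cg W ω).Reachable y v) ∨
      ((cg W ω).Reachable u y ∧ (cg W ω).Reachable x v) := by
  obtain ⟨p⟩ := h
  induction p with
  | nil => left; exact SimpleGraph.Reachable.refl _
  | @cons u w v huw p ih =>
    have hstep : (cg W ω).Reachable u w ∨ (u = x ∧ w = y) ∨ (u = y ∧ w = x) := by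
      obtain ⟨hne, hmem⟩ := huw
      rw [Finset.mem_insert] at hmem
      rcases hmem with hmem | hmem
      · rw [Sym2.eq_iff] at hmem
        rcases hmem with ⟨h1, h2⟩ | ⟨h1, h2⟩
        · right; left; exact ⟨Subtype.ext h1, Subtype.ext h2⟩
        · right; right; exact ⟨Subtype.ext h1, Subtype.ext h2⟩
      · left
        exact SimpleGraph.Adj.reachable (show (cg W ω).Adj u w from ⟨hne, hmem⟩)
    rcases hstep with hs | ⟨rfl, rfl⟩ | ⟨rfl, rfl⟩
    · rcases ih with ih | ⟨h1, h2⟩ | ⟨h1, h2⟩
      · left; exact hs.trans ih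
      · right; left; exact ⟨hs.trans h1, h2⟩
      · right; right; exact ⟨hs.trans h1, h2⟩
    · rcases ih with ih | ⟨h1, h2⟩ | ⟨h1, h2⟩
      · right; left; exact ⟨SimpleGraph.Reachable.refl _, ih⟩
      · right; left; exact ⟨SimpleGraph.Reachable.refl _, h2⟩
      · left; exact h2
    · rcases ih with ih | ⟨h1, h2⟩ | ⟨h1, h2⟩
      · right; right; exact ⟨SimpleGraph.Reachable.refl _, ih⟩
      · left; exact h2
      · right; right; exact ⟨SimpleGraph.Reachable.refl _, h2⟩

theorem comps_insert [DecidableEq V] {W : Finset V} {ω : Finset (Sym2 V)} {e : Sym2 V}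
    (he : ∀ x ∈ e, x ∈ W) : comps W ω ≤ comps W (insert e ω) + 1 := by
  classical
  induction e using Sym2.ind with
  | _ x0 y0 =>
  set x : W := ⟨x0, he x0 (Sym2.mem_mk_left _ _)⟩ with hx
  set y : W := ⟨y0, he y0 (Sym2.mem_mk_right _ _)⟩ with hy
  set G0 := cg W ω with hG0
  set G1 := cg W (insert s(x0, y0) ω) with hG1
  have hle : G0 ≤ G1 := cg_mono (Finset.subset_insert _ _)
  let f : G0.ConnectedComponent → Option G1.ConnectedComponent := fun C =>
    if C = G0.connectedComponentMk y then none
    else some (SimpleGraph.ConnectedComponent.map (SimpleGraph.Hom.ofLE hle) C)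
  have hf : Function.Injective f := by
    intro C C' hCC
    by_cases h1 : C = G0.connectedComponentMk y
    · by_cases h2 : C' = G0.connectedComponentMk y
      · rw [h1, h2]
      · simp [f, h1, h2] at hCC
    · by_cases h2 : C' = G0.connectedComponentMk y
      · simp [f, h1, h2] at hCC
      · simp only [f, if_neg h1, if_neg h2, Option.some.injEq] at hCC
        revert h1 h2 hCC
        refine SimpleGraph.ConnectedComponent.ind₂ (fun u v => ?_) C C'
        intro h1 h2 hCC
        have hr : G1.Reachable u v := SimpleGraph.ConnectedComponent.exact hCC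
        rcases reach_insert (x := x) (y := y) hr with h | ⟨_, h⟩ | ⟨h, _⟩
        · exact SimpleGraph.ConnectedComponent.sound h
        · exact absurd (SimpleGraph.ConnectedComponent.sound h.symm) h2
        · exact absurd (SimpleGraph.ConnectedComponent.sound h) h1
  have := Nat.card_le_card_of_injective f hf
  rw [Finite.card_option] at this
  exact this

end Pool.Agent.X194.FK
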