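import Pool.Agent.X194.FK.Comp

open MeasureTheory Filter Topology Set
open scoped ENNReal BoundedContinuousFunction

namespace Pool.Agent.X194.FK

variable {V : Type}

/-- A finite subgraph of `G`: a finite set of vertices and a finite set of edges of `G` between
them. -/
structure FinSub (G : SimpleGraph V) where
  W : Finset V
  F : Finset (Sym2 V)
  edge : ∀ e ∈ F, e ∈ G.edgeSet
  inc : ∀ e ∈ F, ∀ x ∈ e, x ∈ W

variable {G : SimpleGraph V}

open Classical in
/-- The FK-Ising weight `p^|ω| (1-p)^|F \ ω| 2^(number of components of (W, ω))`. -/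
noncomputable def wt (H : FinSub G) (p : ℝ) (ω : Finset (Sym2 V)) : ℝ :=
  p ^ ω.card * (1 - p) ^ (H.F \ ω).card * 2 ^ comps H.W ω

/-- partition function -/
noncomputable def ZZ (H : FinSub G) (p : ℝ) : ℝ := ∑ ω ∈ H.F.powerset, wt H p ω

open Classical in
/-- the configuration of a set of open edges -/
noncomputable def conf (ω : Finset (Sym2 V)) : Sym2 V → Bool := fun e => decide (e ∈ ω)

/-- The free FK-Ising measure on the finite subgraph `H`. -/
noncomputable def fk (H : FinSub G) (p : ℝ) : Measure (Sym2 V → Bool) :=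
  ∑ ω ∈ H.F.powerset, ENNReal.ofReal (wt H p ω / ZZ H p) • Measure.dirac (conf ω)

section
variable (H : FinSub G) {p : ℝ} (hp0 : 0 < p) (hp1 : p < 1)
include hp0 hp1

theorem wt_pos (ω : Finset (Sym2 V)) : 0 < wt H p ω := by
  have : 0 < 1 - p := by linarith
  unfold wt; positivity

theorem ZZ_pos : 0 < ZZ H p :=
  Finset.sum_pos (fun ω _ => wt_pos H hp0 hp1 ω) ⟨∅, Finset.empty_mem_powerset _⟩

open Classical in
theorem fk_apply {B : Set (Sym2 V → Bool)} (hB : MeasurableSet B) :
    fk H p B = ENNReal.ofReal (∑ ω ∈ H.F.powerset, wt H p ω / ZZ H p *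
      (if conf ω ∈ B then 1 else 0)) := by
  unfold fk
  rw [Measure.finsetSum_apply, ENNReal.ofReal_sum_of_nonneg]
  · refine Finset.sum_congr rfl fun ω _ => ?_
    rw [Measure.smul_apply, Measure.dirac_apply' _ hB, smul_eq_mul]
    by_cases h : conf ω ∈ B
    · simp [h]
    · simp [h]
  · intro ω _
    have h1 := wt_pos H hp0 hp1 ω
    have h2 := ZZ_pos H hp0 hp1
    positivity

theorem isProb_fk : IsProbabilityMeasure (fk H p) := ⟨by
  classical
  rw [fk_apply H hp0 hp1 MeasurableSet.univ]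
  have h2 := ZZ_pos H hp0 hp1
  simp only [Set.mem_univ, if_true, mul_one]
  rw [← Finset.sum_div]
  change ENNReal.ofReal (ZZ H p / ZZ H p) = 1
  rw [div_self h2.ne', ENNReal.ofReal_one]⟩

open Classical in
theorem fk_real {B : Set (Sym2 V → Bool)} (hB : MeasurableSet B) :
    (fk H p).real B = (∑ ω ∈ H.F.powerset, wt H p ω * (if conf ω ∈ B then 1 else 0)) / ZZ H p := by
  have h2 := ZZ_pos H hp0 hp1
  rw [measureReal_def, fk_apply H hp0 hp1 hB, ENNReal.toReal_ofReal, Finset.sum_div]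
  · refine Finset.sum_congr rfl fun ω _ => ?_
    ring
  · refine Finset.sum_nonneg fun ω _ => ?_
    have h1 := wt_pos H hp0 hp1 ω
    positivity

end

/-- finite energy constant -/
noncomputable def cc (p : ℝ) : ℝ := min (p / 2) (1 - p)

theorem cc_pos {p : ℝ} (hp0 : 0 < p) (hp1 : p < 1) : 0 < cc p := lt_min (by linarith) (by linarith)

theorem cc_le {p : ℝ} (hp0 : 0 < p) : cc p ≤ 1 := (min_le_right _ _).trans (by linarith)

open Classical in
theorem wt_energy (H : FinSub G) {p : ℝ} (hp0 : 0 < p) (hp1 : p < 1) {e : Sym2 V} (he : e ∈ H.F)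
    {ω : Finset (Sym2 V)} (hω : ω ⊆ H.F.erase e) :
    cc p * (wt H p ω + wt H p (insert e ω)) ≤ wt H p (insert e ω) ∧
      cc p * (wt H p ω + wt H p (insert e ω)) ≤ wt H p ω := by
  have heω : e ∉ ω := fun h => Finset.notMem_erase e H.F (hω h)
  have h1 : (insert e ω).card = ω.card + 1 := Finset.card_insert_of_notMem heω
  have h2 : (H.F \ ω).card = (H.F \ insert e ω).card + 1 := by
    have : H.F \ ω = insert e (H.F \ insert e ω) := by
      ext x
      simp only [Finset.mem_sdiff, Finset.mem_insert]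
      constructor
      · intro ⟨h3, h4⟩
        by_cases hx : x = e
        · left; exact hx
        · right; exact ⟨h3, fun h5 => h5.elim hx h4⟩
      · rintro (rfl | ⟨h3, h4⟩)
        · exact ⟨he, heω⟩
        · exact ⟨h3, fun h5 => h4 (Or.inr h5)⟩
    rw [this, Finset.card_insert_of_notMem]
    simp
  have hc1 : comps H.W (insert e ω) ≤ comps H.W ω := comps_anti (Finset.subset_insert _ _)
  have hc2 : comps H.W ω ≤ comps H.W (insert e ω) + 1 := comps_insert (H.inc e he)
  unfold wt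
  rw [h1, h2]
  set k := ω.card
  set l := (H.F \ insert e ω).card
  set c0 := comps H.W ω
  set c1 := comps H.W (insert e ω)
  have hq : 0 < 1 - p := by linarith
  have hA : 0 < p ^ k * (1 - p) ^ l := by positivity
  have h21 : (2 : ℝ) ^ c0 ≤ 2 * 2 ^ c1 := by
    calc (2 : ℝ) ^ c0 ≤ 2 ^ (c1 + 1) := pow_le_pow_right₀ (by norm_num) hc2
      _ = 2 * 2 ^ c1 := by ring
  have h12 : (2 : ℝ) ^ c1 ≤ 2 ^ c0 := pow_le_pow_right₀ (by norm_num) hc1
  have hcp : cc p ≤ p / 2 := min_le_left _ _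
  have hcq : cc p ≤ 1 - p := min_le_right _ _
  have hc0 := cc_pos hp0 hp1
  have e0 : p ^ k * (1 - p) ^ (l + 1) * 2 ^ c0 = (p ^ k * (1 - p) ^ l) * ((1 - p) * 2 ^ c0) := by ring
  have e1 : p ^ (k + 1) * (1 - p) ^ l * 2 ^ c1 = (p ^ k * (1 - p) ^ l) * (p * 2 ^ c1) := by ring
  rw [e0, e1, ← mul_add]
  have p1 : (0 : ℝ) < 2 ^ c1 := by positivity
  have p0 : (0 : ℝ) < 2 ^ c0 := by positivity
  constructor
  · rw [mul_left_comm]
    refine mul_le_mul_of_nonneg_left ?_ hA.le
    calc cc p * ((1 - p) * 2 ^ c0 + p * 2 ^ c1) ≤ (p / 2) * ((1 - p) * 2 ^ c0 + p * 2 ^ c1) := by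
          gcongr
      _ ≤ (p / 2) * ((1 - p) * (2 * 2 ^ c1) + p * 2 ^ c1) := by gcongr
      _ = p * 2 ^ c1 * ((2 - p) / 2) := by ring
      _ ≤ p * 2 ^ c1 * 1 := by gcongr; linarith
      _ = p * 2 ^ c1 := by ring
  · rw [mul_left_comm]
    refine mul_le_mul_of_nonneg_left ?_ hA.le
    calc cc p * ((1 - p) * 2 ^ c0 + p * 2 ^ c1) ≤ (1 - p) * ((1 - p) * 2 ^ c0 + p * 2 ^ c1) := by
          gcongr
      _ ≤ (1 - p) * ((1 - p) * 2 ^ c0 + p * 2 ^ c0) := by gcongr
      _ = (1 - p) * 2 ^ c0 := by ring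

/-- insensitive to an edge -/
def Ins (e : Sym2 V) (B : Set (Sym2 V → Bool)) : Prop :=
  ∀ ω ω' : Sym2 V → Bool, (∀ f, f ≠ e → ω f = ω' f) → (ω ∈ B ↔ ω' ∈ B)

theorem fk_energy (H : FinSub G) {p : ℝ} (hp0 : 0 < p) (hp1 : p < 1) {e : Sym2 V} (he : e ∈ H.F)
    {B : Set (Sym2 V → Bool)} (hB : MeasurableSet B) (hins : Ins e B) (b : Bool) :
    cc p * (fk H p).real B ≤ (fk H p).real (B ∩ {ω | ω e = b}) := by
  classical
  have hbm : MeasurableSet {ω : Sym2 V → Bool | ω e = b} := by
    have h : Measurable (fun ω : Sym2 V → Bool => ω e) := measurable_pi_apply e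
    exact h (MeasurableSet.of_discrete (s := {b}))
  rw [fk_real H hp0 hp1 hB, fk_real H hp0 hp1 (hB.inter hbm), ← mul_div_assoc]
  have hZ := ZZ_pos H hp0 hp1
  gcongr
  have hF : H.F = insert e (H.F.erase e) := (Finset.insert_erase he).symm
  have hne : e ∉ H.F.erase e := Finset.notMem_erase _ _
  have hsplit : ∀ f : Finset (Sym2 V) → ℝ, ∑ ω ∈ H.F.powerset, f ω =
      ∑ ω ∈ (H.F.erase e).powerset, (f ω + f (insert e ω)) := by
    intro f
    conv_lhs => rw [hF]
    rw [Finset.sum_powerset_insert hne, Finset.sum_add_distrib]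
  rw [hsplit, hsplit, Finset.mul_sum]
  refine Finset.sum_le_sum fun ω hω => ?_
  rw [Finset.mem_powerset] at hω
  have heω : e ∉ ω := fun h => hne (hω h)
  have hiff : conf (insert e ω) ∈ B ↔ conf ω ∈ B := by
    refine hins _ _ fun f hf => ?_
    simp [conf, hf]
  have hv0 : conf ω e = false := by simp [conf, heω]
  have hv1 : conf (insert e ω) e = true := by simp [conf]
  obtain ⟨g1, g2⟩ := wt_energy H hp0 hp1 he hω
  by_cases hBω : conf ω ∈ B
  · have hBω' := hiff.mpr hBω
    cases b with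
    | true =>
      have m0 : conf ω ∉ B ∩ {ω | ω e = true} := fun h => by
        have := h.2; rw [Set.mem_ofPred_eq, hv0] at this; exact absurd this (by decide)
      have m1 : conf (insert e ω) ∈ B ∩ {ω | ω e = true} := ⟨hBω', hv1⟩
      rw [if_pos hBω, if_pos hBω', if_neg m0, if_pos m1]
      linarith
    | false =>
      have m0 : conf ω ∈ B ∩ {ω | ω e = false} := ⟨hBω, hv0⟩
      have m1 : conf (insert e ω) ∉ B ∩ {ω | ω e = false} := fun h => by
        have := h.2; rw [Set.mem_ofPred_eq, hv1] at this; exact absurd this (by decide)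
      rw [if_pos hBω, if_pos hBω', if_pos m0, if_neg m1]
      linarith
  · have hBω' : conf (insert e ω) ∉ B := fun h => hBω (hiff.mp h)
    rw [if_neg hBω, if_neg hBω', if_neg (fun h => hBω h.1), if_neg (fun h => hBω' h.1)]
    simp

/-- Exhaustion of `G` by finite subgraphs. -/
structure IsExhaustion (G : SimpleGraph V) (H : ℕ → FinSub G) : Prop where
  monoW : ∀ n, (H n).W ⊆ (H (n + 1)).W
  monoF : ∀ n, (H n).F ⊆ (H (n + 1)).F
  vert : ∀ v, ∃ n, v ∈ (H n).W
  edge : ∀ e ∈ G.edgeSet, ∃ n, e ∈ (H n).F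

/-- `φ` is a free FK-Ising measure of `G`: the weak limit of the free FK-Ising measures along
some exhaustion of `G` by finite subgraphs. -/
def IsFreeFK (G : SimpleGraph V) (p : ℝ) (φ : Measure (Sym2 V → Bool)) : Prop :=
  IsProbabilityMeasure φ ∧ ∃ H : ℕ → FinSub G, IsExhaustion G H ∧
    ∀ f : (Sym2 V → Bool) →ᵇ ℝ, Tendsto (fun n => ∫ ω, f ω ∂(fk (H n) p)) atTop (𝓝 (∫ ω, f ω ∂φ))

theorem IsExhaustion.eventually_edge {H : ℕ → FinSub G} (hH : IsExhaustion G H) {e : Sym2 V}
    (he : e ∈ G.edgeSet) : ∀ᶠ n in atTop, e ∈ (H n).F := by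
  obtain ⟨n, hn⟩ := hH.edge e he
  have hm : Monotone (fun n => (H n).F) := monotone_nat_of_le_succ hH.monoF
  filter_upwards [eventually_ge_atTop n] with k hk
  exact hm hk hn

section
variable [Countable V]

/-- indicator of a clopen set -/
noncomputable def clopenInd (B : Set (Sym2 V → Bool)) (hB : IsClopen B) : (Sym2 V → Bool) →ᵇ ℝ :=
  BoundedContinuousFunction.indicator B hB

theorem IsFreeFK.tendsto_clopen {p : ℝ} {φ : Measure (Sym2 V → Bool)} {H : ℕ → FinSub G}
    (h : ∀ f : (Sym2 V → Bool) →ᵇ ℝ,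
      Tendsto (fun n => ∫ ω, f ω ∂(fk (H n) p)) atTop (𝓝 (∫ ω, f ω ∂φ)))
    {B : Set (Sym2 V → Bool)} (hB : IsClopen B) :
    Tendsto (fun n => (fk (H n) p).real B) atTop (𝓝 (φ.real B)) := by
  have h1 := h (BoundedContinuousFunction.indicator B hB)
  have hm : MeasurableSet B := hB.isOpen.measurableSet
  have h2 : ∀ μ : Measure (Sym2 V → Bool),
      ∫ ω, (BoundedContinuousFunction.indicator B hB) ω ∂μ = μ.real B := by
    intro μ
    have : (fun ω => (BoundedContinuousFunction.indicator B hB) ω) = B.indicator 1 := by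
      funext ω; simp
    rw [this, integral_indicator_one hm]
  simp only [h2] at h1
  exact h1

theorem isFree_energy {p : ℝ} (hp0 : 0 < p) (hp1 : p < 1) {φ : Measure (Sym2 V → Bool)}
    (h : IsFreeFK G p φ) {e : Sym2 V} (he : e ∈ G.edgeSet)
    {B : Set (Sym2 V → Bool)} (hB : IsClopen B) (hins : Ins e B) (b : Bool) :
    cc p * φ.real B ≤ φ.real (B ∩ {ω | ω e = b}) := by
  obtain ⟨_, H, hH, hlim⟩ := h
  have hb : IsClopen {ω : Sym2 V → Bool | ω e = b} :=
    (isClopen_discrete {b}).preimage (continuous_apply e)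
  refine le_of_tendsto_of_tendsto ((IsFreeFK.tendsto_clopen hlim hB).const_mul (cc p))
    (IsFreeFK.tendsto_clopen hlim (hB.inter hb)) ?_
  filter_upwards [hH.eventually_edge he] with n hn
  exact fk_energy (H n) hp0 hp1 hn hB.isOpen.measurableSet hins b

/-- pattern event -/
def pat (A : Finset (Sym2 V)) (η : Sym2 V → Bool) : Set (Sym2 V → Bool) :=
  {ω | ∀ e ∈ A, ω e = η e}

omit [Countable V] in
theorem isClopen_pat (A : Finset (Sym2 V)) (η : Sym2 V → Bool) : IsClopen (pat A η) := by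
  have : pat A η = ⋂ e ∈ A, {ω | ω e = η e} := by
    ext ω; simp [pat]
  rw [this]
  exact isClopen_biInter_finset fun e _ => (isClopen_discrete {η e}).preimage (continuous_apply e)

omit [Countable V] in
theorem ins_pat {A : Finset (Sym2 V)} {e : Sym2 V} (he : e ∉ A) (η : Sym2 V → Bool) :
    Ins e (pat A η) := by
  intro ω ω' h
  refine forall₂_congr fun f hf => ?_
  rw [h f (fun h' => he (h' ▸ hf))]

omit [Countable V] in
theorem Ins.inter {e : Sym2 V} {B C : Set (Sym2 V → Bool)} (hB : Ins e B) (hC : Ins e C) :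
    Ins e (B ∩ C) := fun ω ω' h => and_congr (hB ω ω' h) (hC ω ω' h)

omit [Countable V] in
theorem Ins.compl {e : Sym2 V} {B : Set (Sym2 V → Bool)} (hB : Ins e B) :
    Ins e Bᶜ := fun ω ω' h => not_congr (hB ω ω' h)

theorem pat_energy {p : ℝ} (hp0 : 0 < p) (hp1 : p < 1) {φ : Measure (Sym2 V → Bool)}
    (h : IsFreeFK G p φ) (η : Sym2 V → Bool) {B : Set (Sym2 V → Bool)} (hB : IsClopen B)
    (A : Finset (Sym2 V)) : (∀ e ∈ A, e ∈ G.edgeSet) → (∀ e ∈ A, Ins e B) →
    cc p ^ A.card * φ.real B ≤ φ.real (B ∩ pat A η) := by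
  classical
  have := h.1
  induction A using Finset.induction_on with
  | empty =>
    intro _ _
    have : pat (∅ : Finset (Sym2 V)) η = univ := by ext; simp [pat]
    rw [this]; simp
  | insert e A he ih =>
    intro hA hI
    have h1 := ih (fun f hf => hA f (Finset.mem_insert_of_mem hf))
      (fun f hf => hI f (Finset.mem_insert_of_mem hf))
    have h2 := isFree_energy hp0 hp1 h (hA e (Finset.mem_insert_self _ _))
      (hB.inter (isClopen_pat A η)) ((hI e (Finset.mem_insert_self _ _)).inter (ins_pat he η)) (η e)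
    have h3 : B ∩ pat A η ∩ {ω | ω e = η e} = B ∩ pat (insert e A) η := by
      ext ω
      simp only [pat, Set.mem_inter_iff, Set.mem_ofPred_eq, Finset.mem_insert, forall_eq_or_imp]
      tauto
    rw [h3] at h2
    rw [Finset.card_insert_of_notMem he, pow_succ']
    calc cc p * cc p ^ A.card * φ.real B = cc p * (cc p ^ A.card * φ.real B) := by ring
      _ ≤ cc p * φ.real (B ∩ pat A η) := by
          gcongr
          exact (cc_pos hp0 hp1).le
      _ ≤ _ := h2

theorem family_bound {p : ℝ} (hp0 : 0 < p) (hp1 : p < 1) {φ : Measure (Sym2 V → Bool)}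
    (h : IsFreeFK G p φ) {ι : Type} [DecidableEq ι] (A : ι → Finset (Sym2 V))
    (η : ι → Sym2 V → Bool) (k : ℕ) (s : Finset ι)
    (hA : ∀ i ∈ s, ∀ e ∈ A i, e ∈ G.edgeSet) (hk : ∀ i ∈ s, (A i).card ≤ k)
    (hd : ∀ i ∈ s, ∀ j ∈ s, i ≠ j → Disjoint (A i) (A j)) :
    φ.real (⋂ i ∈ s, (pat (A i) (η i))ᶜ) ≤ (1 - cc p ^ k) ^ s.card := by
  have := h.1
  have hc := cc_pos hp0 hp1
  have hc1 := cc_le (p := p) hp0
  induction s using Finset.induction_on with
  | empty => simp
  | insert i s hi ih =>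
    have h1 := ih (fun j hj => hA j (Finset.mem_insert_of_mem hj))
      (fun j hj => hk j (Finset.mem_insert_of_mem hj))
      (fun j hj l hl => hd j (Finset.mem_insert_of_mem hj) l (Finset.mem_insert_of_mem hl))
    set B : Set (Sym2 V → Bool) := ⋂ j ∈ s, (pat (A j) (η j))ᶜ with hB
    have hBc : IsClopen B := isClopen_biInter_finset fun j _ => (isClopen_pat _ _).compl
    have hIns : ∀ e ∈ A i, Ins e B := by
      intro e he ω ω' hω
      simp only [hB, Set.mem_iInter]
      refine forall₂_congr fun j hj => ?_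
      have hij : i ≠ j := fun h' => hi (h' ▸ hj)
      have hdis := hd i (Finset.mem_insert_self _ _) j (Finset.mem_insert_of_mem hj) hij
      exact (ins_pat (fun h' => (Finset.disjoint_left.mp hdis) he h') (η j)).compl ω ω' hω
    have h2 := pat_energy hp0 hp1 h (η i) hBc (A i) (hA i (Finset.mem_insert_self _ _)) hIns
    have h3 : (⋂ j ∈ insert i s, (pat (A j) (η j))ᶜ) = B \ pat (A i) (η i) := by
      rw [Finset.set_biInter_insert, Set.inter_comm]; rfl
    rw [h3]
    have h4 := measureReal_inter_add_sdiff (μ := φ) (s := B) (isClopen_pat (A i) (η i)).isOpen.measurableSet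
    have h5 : cc p ^ k ≤ cc p ^ (A i).card :=
      pow_le_pow_of_le_one hc.le hc1 (hk i (Finset.mem_insert_self _ _))
    have h6 : 0 ≤ φ.real B := measureReal_nonneg
    have h7 : cc p ^ k ≤ 1 := pow_le_one₀ hc.le hc1
    have h8 : cc p ^ k * φ.real B ≤ cc p ^ (A i).card * φ.real B :=
      mul_le_mul_of_nonneg_right h5 h6
    rw [Finset.card_insert_of_notMem hi, pow_succ']
    calc φ.real (B \ pat (A i) (η i)) ≤ (1 - cc p ^ k) * φ.real B := by linarith
      _ ≤ (1 - cc p ^ k) * (1 - cc p ^ k) ^ s.card := by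
          apply mul_le_mul_of_nonneg_left h1; linarith

/-- existence of free FK-Ising measures -/
theorem exists_free {p : ℝ} (hp0 : 0 < p) (hp1 : p < 1) {H : ℕ → FinSub G}
    (hH : IsExhaustion G H) : ∃ φ, IsFreeFK G p φ := by
  let μ : ℕ → ProbabilityMeasure (Sym2 V → Bool) := fun n => ⟨fk (H n) p, isProb_fk (H n) hp0 hp1⟩
  obtain ⟨φ, _, ψ, hψ, hlim⟩ := isCompact_univ.tendsto_subseq (x := μ) (fun n => Set.mem_univ _)
  refine ⟨φ, φ.2, fun n => H (ψ n), ⟨?_, ?_, ?_, ?_⟩, ?_⟩
  · intro n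
    have hm : Monotone (fun n => (H n).W) := monotone_nat_of_le_succ hH.monoW
    exact hm (hψ.monotone (Nat.le_succ n))
  · intro n
    have hm : Monotone (fun n => (H n).F) := monotone_nat_of_le_succ hH.monoF
    exact hm (hψ.monotone (Nat.le_succ n))
  · intro v
    obtain ⟨n, hn⟩ := hH.vert v
    have hm : Monotone (fun n => (H n).W) := monotone_nat_of_le_succ hH.monoW
    exact ⟨n, hm (hψ.id_le n) hn⟩
  · intro e he
    obtain ⟨n, hn⟩ := hH.edge e he
    have hm : Monotone (fun n => (H n).F) := monotone_nat_of_le_succ hH.monoF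
    exact ⟨n, hm (hψ.id_le n) hn⟩
  · intro f
    exact (ProbabilityMeasure.tendsto_iff_forall_integral_tendsto.mp hlim) f

end

end Pool.Agent.X194.FK
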