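import Pool.Agent.X194.FK.Hyp
import Pool.Agent.X194.FK.Meas

open Filter Topology Set

namespace Pool.Agent.X194.FK

/-- number of copies at level `n` -/
def M (n : ℕ) : ℕ := (n + 1) ^ (3 * n + 4)

theorem M_pos (n : ℕ) : 0 < M n := by unfold M; positivity

/-- vertices -/
inductive Vx : Type
  | sp (n : ℕ) : Vx
  | mid (n : ℕ) (i : Fin (M n)) : Vx
  | lad (n : ℕ) (i : Fin (M n)) (s : Bool) (j : Fin (n + 1)) : Vx

open Vx

/-- oriented edges -/
inductive Rel : Vx → Vx → Prop
  | m1 (n : ℕ) (i : Fin (M n)) : Rel (sp n) (mid n i)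
  | m2 (n : ℕ) (i : Fin (M n)) : Rel (mid n i) (sp (n + 1))
  | l0 (n : ℕ) (i : Fin (M n)) (s : Bool) : Rel (sp n) (lad n i s ⟨0, Nat.succ_pos n⟩)
  | rail (n : ℕ) (i : Fin (M n)) (s : Bool) (j : ℕ) (h : j + 1 < n + 1) :
      Rel (lad n i s ⟨j, Nat.lt_of_succ_lt h⟩) (lad n i s ⟨j + 1, h⟩)
  | rung (n : ℕ) (i : Fin (M n)) (j : Fin (n + 1)) : Rel (lad n i false j) (lad n i true j)

/-- The graph. -/
def GG : SimpleGraph Vx where
  Adj u v := Rel u v ∨ Rel v u
  symm := ⟨fun _ _ h => h.symm⟩
  loopless := ⟨fun u h => by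
    rcases h with h | h <;> cases h⟩

theorem adj_of_rel {u v : Vx} (h : Rel u v) : GG.Adj u v := Or.inl h

/-- level of a vertex -/
def lv : Vx → ℕ
  | sp n => n
  | mid n _ => n
  | lad n _ _ _ => n

theorem finite_level (n : ℕ) : {v | lv v = n}.Finite := by
  have h : {v | lv v = n} ⊆ {sp n} ∪ (Set.range (fun i => mid n i) ∪
      Set.range (fun q : Fin (M n) × Bool × Fin (n + 1) => lad n q.1 q.2.1 q.2.2)) := by
    intro v hv
    cases v with
    | sp k =>
      have : k = n := hv
      subst this
      left; rfl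
    | mid k i =>
      have : k = n := hv
      subst this
      right; left; exact ⟨i, rfl⟩
    | lad k i s j =>
      have : k = n := hv
      subst this
      right; right; exact ⟨(i, s, j), rfl⟩
  exact (((Set.finite_singleton _).union ((Set.finite_range _).union (Set.finite_range _)))).subset h

theorem finite_level_le (n : ℕ) : {v | lv v ≤ n}.Finite := by
  have : {v | lv v ≤ n} = ⋃ k ∈ Set.Iic n, {v | lv v = k} := by ext v; simp
  rw [this]
  exact (Set.finite_Iic n).biUnion fun k _ => finite_level k

theorem lv_rel {u v : Vx} (h : Rel u v) : lv u ≤ lv v ∧ lv v ≤ lv u + 1 := by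
  cases h <;> simp [lv]

theorem finite_nbr (v : Vx) : (GG.neighborSet v).Finite := by
  refine (finite_level_le (lv v + 1)).subset ?_
  intro u hu
  rcases hu with h | h
  · exact (lv_rel h).2
  · have := (lv_rel h).1
    simp only [Set.mem_ofPred_eq]; omega

instance : Countable Vx := by
  have : (Set.univ : Set Vx) = ⋃ n, {v | lv v ≤ n} := by
    ext v; simp only [Set.mem_univ, Set.mem_iUnion, Set.mem_ofPred_eq, true_iff]; exact ⟨_, le_rfl⟩
  rw [← Set.countable_univ_iff, this]
  exact Set.countable_iUnion fun n => (finite_level_le n).countable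

instance : Infinite Vx := Infinite.of_injective sp (fun a b h => by injection h)

/-- coordinates -/
def pos : Vx → ℤ
  | sp n => 2 * n
  | mid n _ => 2 * n + 1
  | lad n _ _ _ => 2 * n

def hh : Vx → ℤ
  | sp _ => 0
  | mid _ _ => 0
  | lad _ _ _ j => j + 1

def br : Vx → Option (ℕ × ℕ)
  | sp _ => none
  | mid _ _ => none
  | lad n i _ _ => some (n, i)

/-- Gromov product at `sp 0` (approximately) -/
def gp (x y : Vx) : ℤ :=
  if br x = br y ∧ br x ≠ none then pos x + min (hh x) (hh y) else min (pos x) (pos y)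

def DD (x y : Vx) : ℤ := pos x + hh x + pos y + hh y - 2 * gp x y

theorem hh_nonneg (x : Vx) : 0 ≤ hh x := by
  cases x <;> simp [hh]; omega

theorem pos_of_br {x y : Vx} (h : br x = br y) (h' : br x ≠ none) : pos x = pos y := by
  cases x <;> cases y <;> simp_all [br, pos]

theorem hh_of_br {x : Vx} (h : br x = none) : hh x = 0 := by
  cases x <;> simp_all [br, hh]

theorem DD_self (x : Vx) : DD x x = 0 := by
  unfold DD gp
  by_cases h : br x = none
  · rw [if_neg (by simp [h]), hh_of_br h]; simp; ring
  · rw [if_pos ⟨rfl, h⟩]; simp; ring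

theorem DD_comm (x y : Vx) : DD x y = DD y x := by
  unfold DD gp
  by_cases h : br x = br y ∧ br x ≠ none
  · have h' : br y = br x ∧ br y ≠ none := ⟨h.1.symm, h.1 ▸ h.2⟩
    rw [if_pos h, if_pos h', pos_of_br h.1 h.2, min_comm (hh y)]; ring
  · have h' : ¬ (br y = br x ∧ br y ≠ none) := fun h2 => h ⟨h2.1.symm, h2.1 ▸ h2.2⟩
    rw [if_neg h, if_neg h', min_comm (pos y)]; ring

theorem hh_pos_of_br {y : Vx} (h : br y ≠ none) : 1 ≤ hh y := by
  cases y <;> simp_all [br, hh]

theorem DD_lip_rel {x x' : Vx} (h : Rel x x') (y : Vx) : |DD x y - DD x' y| ≤ 1 := by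
  have hy := hh_nonneg y
  have hp := fun (x : Vx) (h1 : br x = br y) (h2 : br x ≠ none) => pos_of_br h1 h2
  have hq := hh_pos_of_br (y := y)
  unfold DD gp
  rw [abs_le]
  generalize br y = B at *
  generalize pos y = P at *
  generalize hh y = H at *
  cases h with
  | m1 n i =>
    simp only [br, pos, hh, ne_eq, not_true_eq_false, and_false, if_false]
    omega
  | m2 n i =>
    simp only [br, pos, hh, ne_eq, not_true_eq_false, and_false, if_false]
    push_cast
    omega
  | l0 n i s =>
    by_cases h1 : some (n, (i : ℕ)) = B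
    · have h2 := hp (lad n i s ⟨0, Nat.succ_pos n⟩) h1 (by simp [br])
      have h3 := hq (by rw [← h1]; simp)
      simp only [pos] at h2
      subst h1
      simp only [br, pos, hh, ne_eq, not_true_eq_false, if_false,
        reduceCtorEq, not_false_eq_true, and_self, if_true]
      push_cast
      omega
    · simp only [br, pos, hh, ne_eq, not_true_eq_false, and_false, if_false, h1, false_and]
      push_cast
      omega
  | rail n i s j hj =>
    by_cases h1 : some (n, (i : ℕ)) = B
    · have h2 := hp (lad n i s ⟨0, Nat.succ_pos n⟩) h1 (by simp [br])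
      simp only [pos] at h2
      subst h1
      simp only [br, pos, hh, ne_eq,
        reduceCtorEq, not_false_eq_true, and_self, if_true]
      push_cast
      omega
    · simp only [br, pos, hh, ne_eq, h1, false_and, if_false]
      push_cast
      omega
  | rung n i j =>
    simp only [br, pos, hh]
    split_ifs <;> omega

theorem DD_lip (y : Vx) (x x' : Vx) (h : GG.Adj x x') : |DD x y - DD x' y| ≤ 1 := by
  rcases h with h | h
  · exact DD_lip_rel h y
  · rw [abs_sub_comm]; exact DD_lip_rel h y

theorem rw_up (n : ℕ) (i : Fin (M n)) (s : Bool) (k : ℕ) : ∀ (j : ℕ) (h : j + k < n + 1),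
    Rw GG (lad n i s ⟨j, by omega⟩) (lad n i s ⟨j + k, h⟩) k := by
  induction k with
  | zero => intro j h; exact Rw.refl _
  | succ k ih =>
    intro j h
    exact (ih j (by omega)).trans (Rw.adj (adj_of_rel (Rel.rail n i s (j + k) h)))

theorem rw_lad_same (n : ℕ) (i : Fin (M n)) (s : Bool) (j j' : Fin (n + 1)) :
    Rw GG (lad n i s j) (lad n i s j') ((j : ℤ) - j').natAbs := by
  rcases le_total (j : ℕ) j' with h | h
  · obtain ⟨k, hk⟩ := Nat.exists_eq_add_of_le h
    have h1 := rw_up n i s k j (by have := j'.2; omega)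
    have h2 : (⟨(j : ℕ) + k, by have := j'.2; omega⟩ : Fin (n + 1)) = j' := Fin.ext hk.symm
    rw [h2] at h1
    exact h1.mono (by omega)
  · obtain ⟨k, hk⟩ := Nat.exists_eq_add_of_le h
    have h1 := rw_up n i s k j' (by have := j.2; omega)
    have h2 : (⟨(j' : ℕ) + k, by have := j.2; omega⟩ : Fin (n + 1)) = j := Fin.ext hk.symm
    rw [h2] at h1
    exact h1.symm.mono (by omega)

theorem rw_lad (n : ℕ) (i : Fin (M n)) (s s' : Bool) (j j' : Fin (n + 1)) :
    Rw GG (lad n i s j) (lad n i s' j') (((j : ℤ) - j').natAbs + 1) := by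
  by_cases h : s = s'
  · subst h
    exact (rw_lad_same n i s j j').mono (by omega)
  · have h1 : Rw GG (lad n i s j') (lad n i s' j') 1 := by
      cases s <;> cases s'
      · exact absurd rfl h
      · exact Rw.adj (adj_of_rel (Rel.rung n i j'))
      · exact Rw.adj (adj_of_rel (Rel.rung n i j')).symm
      · exact absurd rfl h
    exact (rw_lad_same n i s j j').trans h1

/-- base vertex -/
def base (x : Vx) : Vx := sp (lv x)

theorem rw_base (x : Vx) : Rw GG x (base x) ((hh x).natAbs + 1) := by
  cases x with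
  | sp n => exact (Rw.refl _).mono (by omega)
  | mid n i => exact (Rw.adj (adj_of_rel (Rel.m1 n i)).symm).mono (by simp [hh])
  | lad n i s j =>
    have h1 := rw_lad_same n i s j ⟨0, Nat.succ_pos n⟩
    have h2 := h1.trans (Rw.adj (adj_of_rel (Rel.l0 n i s)).symm)
    refine h2.mono ?_
    simp only [hh]
    push_cast
    omega

theorem rw_spine (n k : ℕ) : Rw GG (sp n) (sp (n + k)) (2 * k) := by
  induction k with
  | zero => exact Rw.refl _
  | succ k ih =>
    have h1 : Rw GG (sp (n + k)) (sp (n + (k + 1))) 2 :=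
      (Rw.adj (adj_of_rel (Rel.m1 (n + k) ⟨0, M_pos _⟩))).trans
        (Rw.adj (adj_of_rel (Rel.m2 (n + k) ⟨0, M_pos _⟩)))
    exact (ih.trans h1).mono (by omega)

theorem rw_spine' (n m : ℕ) : Rw GG (sp n) (sp m) (2 * ((n : ℤ) - m).natAbs) := by
  rcases le_total n m with h | h
  · obtain ⟨k, rfl⟩ := Nat.exists_eq_add_of_le h
    exact (rw_spine n k).mono (by omega)
  · obtain ⟨k, rfl⟩ := Nat.exists_eq_add_of_le h
    exact (rw_spine m k).symm.mono (by omega)

theorem connected : GG.Connected := by
  have : Nonempty Vx := ⟨sp 0⟩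
  refine SimpleGraph.Connected.mk fun x y => ?_
  exact ((rw_base x).trans ((rw_spine' _ _).trans (rw_base y).symm)).reachable

theorem dist_lower (x y : Vx) : DD x y ≤ GG.dist x y := by
  have h := dist_lip (f := fun x => DD x y) (DD_lip y) (connected.preconnected x y)
  simp only [DD_self, sub_zero] at h
  exact (le_abs_self _).trans h

theorem pos_lv (x : Vx) : 2 * (lv x : ℤ) ≤ pos x ∧ pos x ≤ 2 * (lv x : ℤ) + 1 := by
  cases x <;> simp [pos, lv]

theorem dist_upper (x y : Vx) : (GG.dist x y : ℤ) ≤ DD x y + 3 := by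
  by_cases h : br x = br y ∧ br x ≠ none
  · have hD : DD x y = |hh x - hh y| := by
      unfold DD gp
      rw [if_pos h, pos_of_br h.1 h.2]
      have := hh_nonneg x
      have := hh_nonneg y
      rcases abs_cases (hh x - hh y) with h1 | h1 <;> omega
    rw [hD]
    obtain ⟨h1, h2⟩ := h
    cases x with
    | sp n => exact absurd rfl h2
    | mid n i => exact absurd rfl h2
    | lad n i s j =>
      cases y with
      | sp m => exact absurd h1 (by simp [br])
      | mid m k => exact absurd h1 (by simp [br])
      | lad m k s' j' =>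
        simp only [br, Option.some.injEq, Prod.mk.injEq] at h1
        obtain ⟨rfl, h3⟩ := h1
        have : i = k := Fin.ext h3
        subst this
        have h4 := (rw_lad n i s s' j j').dist_le
        simp only [hh]
        rcases abs_cases (((j : ℕ) : ℤ) + 1 - (((j' : ℕ) : ℤ) + 1)) with h5 | h5 <;> omega
  · have h1 := ((rw_base x).trans ((rw_spine' _ _).trans (rw_base y).symm)).dist_le
    have hx := hh_nonneg x
    have hy := hh_nonneg y
    have px := pos_lv x
    have py := pos_lv y
    unfold DD gp
    rw [if_neg h]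
    omega

theorem gp_ultra (x y z : Vx) : min (gp x y) (gp y z) ≤ gp x z := by
  have hx := hh_nonneg x
  have hy := hh_nonneg y
  have hz := hh_nonneg z
  unfold gp
  by_cases h1 : br x = br y ∧ br x ≠ none
  · have p1 := pos_of_br h1.1 h1.2
    by_cases h2 : br y = br z ∧ br y ≠ none
    · have p2 := pos_of_br h2.1 h2.2
      rw [if_pos h1, if_pos h2, if_pos ⟨h1.1.trans h2.1, h1.2⟩]
      omega
    · have h3 : ¬ (br x = br z ∧ br x ≠ none) := fun h => h2 ⟨h1.1 ▸ h.1, h1.1 ▸ h1.2⟩
      rw [if_pos h1, if_neg h2, if_neg h3]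
      omega
  · by_cases h2 : br y = br z ∧ br y ≠ none
    · have p2 := pos_of_br h2.1 h2.2
      have h3 : ¬ (br x = br z ∧ br x ≠ none) := fun h => h1 ⟨h.1.trans h2.1.symm, h.2⟩
      rw [if_neg h1, if_pos h2, if_neg h3]
      omega
    · rw [if_neg h1, if_neg h2]
      by_cases h3 : br x = br z ∧ br x ≠ none
      · have p3 := pos_of_br h3.1 h3.2
        rw [if_pos h3]; omega
      · rw [if_neg h3]; omega

theorem gp_comm (x y : Vx) : gp x y = gp y x := by
  have := DD_comm x y
  unfold DD at this
  omega

theorem fourD (x y z w : Vx) : DD x y + DD z w ≤ max (DD x z + DD y w) (DD x w + DD y z) := by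
  have a1 := gp_ultra x z y
  have a2 := gp_ultra x w y
  have a3 := gp_ultra z x w
  have a4 := gp_ultra z y w
  have a5 := gp_ultra x y z
  have a6 := gp_ultra x w z
  have a7 := gp_ultra y x w
  have a8 := gp_ultra y z w
  have a9 := gp_ultra x y w
  have a10 := gp_ultra x z w
  have a11 := gp_ultra y x z
  have a12 := gp_ultra y w z
  have c1 := gp_comm x y
  have c2 := gp_comm x z
  have c3 := gp_comm x w
  have c4 := gp_comm y z
  have c5 := gp_comm y w
  have c6 := gp_comm z w
  unfold DD
  generalize gp x y = g1 at *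
  generalize gp y x = g1' at *
  generalize gp x z = g2 at *
  generalize gp z x = g2' at *
  generalize gp x w = g3 at *
  generalize gp w x = g3' at *
  generalize gp y z = g4 at *
  generalize gp z y = g4' at *
  generalize gp y w = g5 at *
  generalize gp w y = g5' at *
  generalize gp z w = g6 at *
  generalize gp w z = g6' at *
  generalize pos x = p1 at *
  generalize pos y = p2 at *
  generalize pos z = p3 at *
  generalize pos w = p4 at *
  generalize hh x = q1 at *
  generalize hh y = q2 at *
  generalize hh z = q3 at *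
  generalize hh w = q4 at *
  subst c1 c2 c3 c4 c5 c6
  omega

theorem hyperbolic : GromovHyperbolic GG := by
  refine hyperbolic_of_fourpoint connected 6 fun x y z w => ?_
  have h := fourD x y z w
  have l1 := dist_lower x z
  have l2 := dist_lower y w
  have l3 := dist_lower x w
  have l4 := dist_lower y z
  have u1 := dist_upper x y
  have u2 := dist_upper z w
  omega

end Pool.Agent.X194.FK
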