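import Mathlib

open Filter Topology Set

namespace Pool.Agent.X194.FK

variable {V : Type}

/-- The geodesic triangle with sides `a` (from `y` to `z`), `b` (from `z` to `x`) and `c` (from `x`
to `y`) is `δ`-thin: each vertex of a side is at distance at most `δ` from the union of the other
two sides. -/
def Thin (Γ : SimpleGraph V) (δ : ℕ) {x y z : V} (a : Γ.Walk y z) (b : Γ.Walk z x)
    (c : Γ.Walk x y) : Prop :=
  (∀ u ∈ a.support, ∃ w, (w ∈ b.support ∨ w ∈ c.support) ∧ Γ.dist u w ≤ δ) ∧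
  (∀ u ∈ b.support, ∃ w, (w ∈ c.support ∨ w ∈ a.support) ∧ Γ.dist u w ≤ δ) ∧
  (∀ u ∈ c.support, ∃ w, (w ∈ a.support ∨ w ∈ b.support) ∧ Γ.dist u w ≤ δ)

/-- A walk is geodesic if its length is the distance of its end points. -/
def IsGeod (Γ : SimpleGraph V) {x y : V} (p : Γ.Walk x y) : Prop := p.length = Γ.dist x y

/-- Gromov hyperbolicity: all geodesic triangles are `δ`-thin for one `δ`. -/
def GromovHyperbolic (Γ : SimpleGraph V) : Prop :=
  ∃ δ : ℕ, ∀ (x y z : V) (a : Γ.Walk y z) (b : Γ.Walk z x) (c : Γ.Walk x y),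
    IsGeod Γ a → IsGeod Γ b → IsGeod Γ c → Thin Γ δ a b c

theorem walk_lip {Γ : SimpleGraph V} {f : V → ℤ} (hf : ∀ u v, Γ.Adj u v → |f u - f v| ≤ 1) {u v : V}
    (p : Γ.Walk u v) : |f u - f v| ≤ p.length := by
  induction p with
  | nil => simp
  | @cons u w v h p ih =>
    have h1 := hf u w h
    have h2 : |f u - f v| ≤ |f u - f w| + |f w - f v| := abs_sub_le _ _ _
    rw [SimpleGraph.Walk.length_cons]
    push_cast
    omega

theorem dist_lip {Γ : SimpleGraph V} {f : V → ℤ} (hf : ∀ u v, Γ.Adj u v → |f u - f v| ≤ 1) {u v : V}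
    (h : Γ.Reachable u v) : |f u - f v| ≤ Γ.dist u v := by
  obtain ⟨p, hp⟩ := h.exists_walk_length_eq_dist
  rw [← hp]
  exact walk_lip hf p

theorem geo_pt {Γ : SimpleGraph V} {x y : V} (p : Γ.Walk x y) (hp : p.length = Γ.dist x y)
    {t : ℕ} (ht : t ≤ p.length) :
    Γ.dist x (p.getVert t) = t ∧ Γ.dist (p.getVert t) y = p.length - t := by
  have h1 : Γ.dist x (p.getVert t) ≤ t := by
    refine (SimpleGraph.dist_le (p.take t)).trans ?_
    rw [SimpleGraph.Walk.take_length]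
    exact min_le_left _ _
  have h2 : Γ.dist (p.getVert t) y ≤ p.length - t := by
    refine (SimpleGraph.dist_le (p.drop t)).trans ?_
    rw [SimpleGraph.Walk.drop_length]
  have h3 : Γ.dist x y ≤ Γ.dist x (p.getVert t) + Γ.dist (p.getVert t) y := by
    obtain ⟨q1, hq1⟩ := (p.take t).reachable.exists_walk_length_eq_dist
    obtain ⟨q2, hq2⟩ := (p.drop t).reachable.exists_walk_length_eq_dist
    refine (SimpleGraph.dist_le (q1.append q2)).trans ?_
    rw [SimpleGraph.Walk.length_append, hq1, hq2]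
  omega

theorem thin_side {Γ : SimpleGraph V} (hc : Γ.Connected) (K : ℕ)
    (h4 : ∀ x y z w, Γ.dist x y + Γ.dist z w ≤
      max (Γ.dist x z + Γ.dist y w) (Γ.dist x w + Γ.dist y z) + K)
    {x y z : V} (a : Γ.Walk y z) (b : Γ.Walk z x) (c : Γ.Walk x y)
    (ha : IsGeod Γ a) (hb : IsGeod Γ b) (hcc : IsGeod Γ c) :
    ∀ u ∈ a.support, ∃ w, (w ∈ b.support ∨ w ∈ c.support) ∧ Γ.dist u w ≤ 2 * K := by
  intro u hu
  obtain ⟨t, rfl, ht⟩ := SimpleGraph.Walk.mem_support_iff_exists_getVert.mp hu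
  obtain ⟨ha1, ha2⟩ := geo_pt a ha ht
  set u := a.getVert t
  have hy : Γ.dist y u + Γ.dist u z = Γ.dist y z := by rw [← ha]; omega
  have h := h4 x u y z
  have tri := fun p q r => hc.dist_triangle (u := p) (v := q) (w := r)
  have sy := fun p q => SimpleGraph.dist_comm (G := Γ) (u := p) (v := q)
  rcases le_max_iff.mp (show Γ.dist x u + Γ.dist y z - K ≤
    max (Γ.dist x y + Γ.dist u z) (Γ.dist x z + Γ.dist u y) by omega) with h5 | h5
  · -- close to the side `c`
    have hkey : Γ.dist x u + Γ.dist y u ≤ Γ.dist x y + K := by omega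
    rcases le_total (Γ.dist x u) (Γ.dist x y) with h6 | h6
    · have h7 : Γ.dist x u ≤ c.length := by rw [hcc]; exact h6
      obtain ⟨hc1, hc2⟩ := geo_pt c hcc h7
      refine ⟨c.getVert (Γ.dist x u), Or.inr (SimpleGraph.Walk.getVert_mem_support _ _), ?_⟩
      set w := c.getVert (Γ.dist x u)
      have h8 := h4 x y u w
      rw [hcc] at hc2
      have s1 := sy w y
      omega
    · refine ⟨y, Or.inr (SimpleGraph.Walk.end_mem_support _), ?_⟩
      have s1 := sy u y
      omega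
  · have hkey : Γ.dist x u + Γ.dist z u ≤ Γ.dist x z + K := by
      have s1 := sy u y
      have s2 := sy u z
      omega
    have hb' : b.length = Γ.dist z x := hb
    have s3 := sy z x
    rcases le_total (Γ.dist z u) (Γ.dist z x) with h6 | h6
    · have h7 : Γ.dist z u ≤ b.length := by rw [hb']; exact h6
      obtain ⟨hc1, hc2⟩ := geo_pt b hb h7
      refine ⟨b.getVert (Γ.dist z u), Or.inl (SimpleGraph.Walk.getVert_mem_support _ _), ?_⟩
      set w := b.getVert (Γ.dist z u)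
      have h8 := h4 z x u w
      rw [hb'] at hc2
      have s1 := sy w x
      have s2 := sy x u
      omega
    · refine ⟨x, Or.inl (SimpleGraph.Walk.end_mem_support _), ?_⟩
      have s1 := sy u x
      omega

theorem hyperbolic_of_fourpoint {Γ : SimpleGraph V} (hc : Γ.Connected) (K : ℕ)
    (h4 : ∀ x y z w, Γ.dist x y + Γ.dist z w ≤
      max (Γ.dist x z + Γ.dist y w) (Γ.dist x w + Γ.dist y z) + K) : GromovHyperbolic Γ := by
  refine ⟨2 * K, fun x y z a b c ha hb hcc => ⟨?_, ?_, ?_⟩⟩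
  · exact thin_side hc K h4 a b c ha hb hcc
  · exact thin_side hc K h4 b c a hb hcc ha
  · exact thin_side hc K h4 c a b hcc ha hb

/-- bounded walks -/
def Rw (Γ : SimpleGraph V) (u v : V) (k : ℕ) : Prop := ∃ p : Γ.Walk u v, p.length ≤ k

theorem Rw.refl {Γ : SimpleGraph V} (u : V) : Rw Γ u u 0 := ⟨SimpleGraph.Walk.nil, le_rfl⟩

theorem Rw.adj {Γ : SimpleGraph V} {u v : V} (h : Γ.Adj u v) : Rw Γ u v 1 := ⟨h.toWalk, by simp⟩

theorem Rw.trans {Γ : SimpleGraph V} {u v w : V} {k l : ℕ} (h : Rw Γ u v k) (h' : Rw Γ v w l) :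
    Rw Γ u w (k + l) := by
  obtain ⟨p, hp⟩ := h
  obtain ⟨q, hq⟩ := h'
  exact ⟨p.append q, by rw [SimpleGraph.Walk.length_append]; omega⟩

theorem Rw.symm {Γ : SimpleGraph V} {u v : V} {k : ℕ} (h : Rw Γ u v k) : Rw Γ v u k := by
  obtain ⟨p, hp⟩ := h
  exact ⟨p.reverse, by rw [SimpleGraph.Walk.length_reverse]; exact hp⟩

theorem Rw.mono {Γ : SimpleGraph V} {u v : V} {k l : ℕ} (h : Rw Γ u v k) (hkl : k ≤ l) :
    Rw Γ u v l := by
  obtain ⟨p, hp⟩ := h
  exact ⟨p, hp.trans hkl⟩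

theorem Rw.dist_le {Γ : SimpleGraph V} {u v : V} {k : ℕ} (h : Rw Γ u v k) : Γ.dist u v ≤ k := by
  obtain ⟨p, hp⟩ := h
  exact (SimpleGraph.dist_le p).trans hp

theorem Rw.reachable {Γ : SimpleGraph V} {u v : V} {k : ℕ} (h : Rw Γ u v k) : Γ.Reachable u v := by
  obtain ⟨p, _⟩ := h
  exact p.reachable

end Pool.Agent.X194.FK
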