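import Pool.Agent.X194.FK.Bad

open MeasureTheory Filter Topology Set
open scoped ENNReal

namespace Pool.Agent.X194.FK

open Vx Classical

noncomputable def Amid (n : ℕ) (i : Fin (M n)) : Finset (Sym2 Vx) :=
  {s(sp n, mid n i), s(mid n i, sp (n + 1))}

noncomputable def Alad (n : ℕ) (i : Fin (M n)) : Finset (Sym2 Vx) :=
  ((Finset.univ : Finset Bool).image (fun s => s(sp n, lad n i s ⟨0, Nat.succ_pos n⟩))) ∪
  (((Finset.univ : Finset (Bool × Fin n)).image (fun q =>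
    s(lad n i q.1 ⟨q.2, Nat.lt_succ_of_lt q.2.2⟩, lad n i q.1 ⟨q.2 + 1, Nat.succ_lt_succ q.2.2⟩))) ∪
  ((Finset.univ : Finset (Fin (n + 1))).image (fun j => s(lad n i false j, lad n i true j))))

noncomputable def etaL (n : ℕ) (i : Fin (M n)) (e : Sym2 Vx) : Bool :=
  decide (¬ ∃ j : Fin (n + 1), (j : ℕ) ≠ n ∧ e = s(lad n i false j, lad n i true j))

theorem card_Amid (n : ℕ) (i : Fin (M n)) : (Amid n i).card ≤ 3 * n + 3 :=
  (Finset.card_le_two).trans (by omega)

theorem card_Alad (n : ℕ) (i : Fin (M n)) : (Alad n i).card ≤ 3 * n + 3 := by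
  unfold Alad
  refine (Finset.card_union_le _ _).trans ?_
  have h1 : ((Finset.univ : Finset Bool).image
      (fun s => s(sp n, lad n i s ⟨0, Nat.succ_pos n⟩))).card ≤ 2 :=
    Finset.card_image_le.trans (by simp)
  have h2 : ((Finset.univ : Finset (Bool × Fin n)).image (fun q =>
    s(lad n i q.1 ⟨q.2, Nat.lt_succ_of_lt q.2.2⟩, lad n i q.1 ⟨q.2 + 1, Nat.succ_lt_succ q.2.2⟩))).card
      ≤ 2 * n := Finset.card_image_le.trans (by simp)
  have h3 : ((Finset.univ : Finset (Fin (n + 1))).image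
      (fun j => s(lad n i false j, lad n i true j))).card ≤ n + 1 :=
    Finset.card_image_le.trans (by simp)
  have h4 := Finset.card_union_le (((Finset.univ : Finset (Bool × Fin n)).image (fun q =>
    s(lad n i q.1 ⟨q.2, Nat.lt_succ_of_lt q.2.2⟩, lad n i q.1 ⟨q.2 + 1, Nat.succ_lt_succ q.2.2⟩))))
    ((Finset.univ : Finset (Fin (n + 1))).image (fun j => s(lad n i false j, lad n i true j)))
  omega

theorem edge_Amid (n : ℕ) (i : Fin (M n)) : ∀ e ∈ Amid n i, e ∈ GG.edgeSet := by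
  intro e he
  simp only [Amid, Finset.mem_insert, Finset.mem_singleton] at he
  rcases he with rfl | rfl
  · exact adj_of_rel (Rel.m1 n i)
  · exact adj_of_rel (Rel.m2 n i)

theorem mem_Alad {n : ℕ} {i : Fin (M n)} {e : Sym2 Vx} (he : e ∈ Alad n i) :
    (∃ s, e = s(sp n, lad n i s ⟨0, Nat.succ_pos n⟩)) ∨
    (∃ s, ∃ j : ℕ, ∃ h : j + 1 < n + 1,
      e = s(lad n i s ⟨j, Nat.lt_of_succ_lt h⟩, lad n i s ⟨j + 1, h⟩)) ∨
    (∃ j : Fin (n + 1), e = s(lad n i false j, lad n i true j)) := by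
  simp only [Alad, Finset.mem_union, Finset.mem_image, Finset.mem_univ, true_and] at he
  rcases he with ⟨s, rfl⟩ | ⟨⟨s, j⟩, rfl⟩ | ⟨j, rfl⟩
  · left; exact ⟨s, rfl⟩
  · right; left; exact ⟨s, j, Nat.succ_lt_succ j.2, rfl⟩
  · right; right; exact ⟨j, rfl⟩

theorem edge_Alad (n : ℕ) (i : Fin (M n)) : ∀ e ∈ Alad n i, e ∈ GG.edgeSet := by
  intro e he
  rcases mem_Alad he with ⟨s, rfl⟩ | ⟨s, j, h, rfl⟩ | ⟨j, rfl⟩
  · exact adj_of_rel (Rel.l0 n i s)
  · exact adj_of_rel (Rel.rail n i s j h)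
  · exact adj_of_rel (Rel.rung n i j)

theorem disj_Amid (n : ℕ) (i k : Fin (M n)) (h : i ≠ k) : Disjoint (Amid n i) (Amid n k) := by
  rw [Finset.disjoint_left]
  intro e h1 h2
  simp only [Amid, Finset.mem_insert, Finset.mem_singleton] at h1 h2
  have h3 : mid n i ∈ e := by rcases h1 with rfl | rfl <;> simp
  rcases h2 with rfl | rfl <;> simp at h3 <;> exact h h3

theorem disj_Alad (n : ℕ) (i k : Fin (M n)) (h : i ≠ k) : Disjoint (Alad n i) (Alad n k) := by
  rw [Finset.disjoint_left]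
  intro e h1 h2
  have h3 : ∃ s j, lad n i s j ∈ e := by
    rcases mem_Alad h1 with ⟨s, rfl⟩ | ⟨s, j, h, rfl⟩ | ⟨j, rfl⟩
    · exact ⟨_, _, Sym2.mem_mk_right _ _⟩
    · exact ⟨_, _, Sym2.mem_mk_right _ _⟩
    · exact ⟨_, _, Sym2.mem_mk_right _ _⟩
  obtain ⟨s, j, h4⟩ := h3
  rcases mem_Alad h2 with ⟨s', rfl⟩ | ⟨s', j', h', rfl⟩ | ⟨j', rfl⟩ <;>
    simp only [Sym2.mem_iff, reduceCtorEq, false_or, lad.injEq, heq_eq_eq, true_and] at h4 <;>
    tauto

theorem spOK_of_pat {ω : Sym2 Vx → Bool} {n : ℕ} {i : Fin (M n)}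
    (h : ω ∈ pat (Amid n i) (fun _ => true)) : SpOK ω n :=
  ⟨i, h _ (by simp [Amid]), h _ (by simp [Amid])⟩

theorem cyc_of_pat {ω : Sym2 Vx → Bool} {n : ℕ} {i : Fin (M n)}
    (h : ω ∈ pat (Alad n i) (etaL n i)) : Cyc ω n i := by
  refine ⟨fun s => ?_, fun s j hj => ?_, fun j => ?_⟩
  · rw [h _ (by
      simp only [Alad, Finset.mem_union, Finset.mem_image, Finset.mem_univ, true_and]
      left; exact ⟨s, rfl⟩)]
    simp only [etaL, decide_eq_true_eq]
    rintro ⟨j', _, he⟩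
    simp at he
  · rw [h _ (by
      simp only [Alad, Finset.mem_union, Finset.mem_image, Finset.mem_univ, true_and]
      right; left; exact ⟨(s, ⟨j, Nat.lt_of_succ_lt_succ hj⟩), rfl⟩)]
    simp only [etaL, decide_eq_true_eq]
    rintro ⟨j', _, he⟩
    cases s <;> simp at he
  · rw [h _ (by
      simp only [Alad, Finset.mem_union, Finset.mem_image, Finset.mem_univ, true_and]
      right; right; exact ⟨j, rfl⟩)]
    by_cases hj : (j : ℕ) = n
    · simp only [etaL, hj, decide_true, decide_eq_true_eq]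
      rintro ⟨j', hj', he⟩
      apply hj'
      simp at he
      rw [← he]; exact hj
    · simp only [etaL, hj, decide_false, decide_eq_false_iff_not, not_not]
      exact ⟨j, hj, rfl⟩

section
variable {p : ℝ} (hp0 : 0 < p) (hp1 : p < 1) {φ : Measure (Sym2 Vx → Bool)} (h : IsFreeFK GG p φ)
include hp0 hp1 h

theorem bound_sp (n : ℕ) : φ.real {ω | ¬ SpOK ω n} ≤ (1 - cc p ^ (3 * n + 3)) ^ (M n) := by
  have := h.1
  have h1 := family_bound hp0 hp1 h (fun i => Amid n i) (fun _ _ => true) (3 * n + 3)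
    (Finset.univ : Finset (Fin (M n))) (fun i _ => edge_Amid n i) (fun i _ => card_Amid n i)
    (fun i _ k _ hik => disj_Amid n i k hik)
  rw [Finset.card_univ, Fintype.card_fin] at h1
  refine le_trans (measureReal_mono ?_) h1
  intro ω hω
  simp only [Set.mem_iInter]
  intro i _ hi
  exact hω (spOK_of_pat hi)

theorem bound_lad (n : ℕ) : φ.real {ω | ¬ LadOK ω n} ≤ (1 - cc p ^ (3 * n + 3)) ^ (M n) := by
  have := h.1
  have h1 := family_bound hp0 hp1 h (fun i => Alad n i) (fun i => etaL n i) (3 * n + 3)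
    (Finset.univ : Finset (Fin (M n))) (fun i _ => edge_Alad n i) (fun i _ => card_Alad n i)
    (fun i _ k _ hik => disj_Alad n i k hik)
  rw [Finset.card_univ, Fintype.card_fin] at h1
  refine le_trans (measureReal_mono ?_) h1
  intro ω hω
  simp only [Set.mem_iInter]
  intro i _ hi
  exact hω ⟨i, cyc_of_pat hi⟩

omit h in
theorem summable_bound : Summable (fun n : ℕ => (1 - cc p ^ (3 * n + 3)) ^ (M n)) := by
  have hc := cc_pos hp0 hp1
  have hc1 := cc_le (p := p) hp0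
  have hs : Summable (fun n : ℕ => Real.exp (-(n : ℝ))) := Real.summable_exp_neg_nat
  refine Summable.of_norm_bounded_eventually_nat hs ?_
  obtain ⟨a, ha⟩ := exists_nat_ge (1 / cc p)
  filter_upwards [eventually_ge_atTop a] with n hn
  have hx0 : 0 ≤ 1 - cc p ^ (3 * n + 3) := by
    have := pow_le_one₀ hc.le hc1 (n := 3 * n + 3); linarith
  rw [Real.norm_of_nonneg (pow_nonneg hx0 _)]
  have h1 : 1 - cc p ^ (3 * n + 3) ≤ Real.exp (-(cc p ^ (3 * n + 3))) := Real.one_sub_le_exp_neg _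
  have h2 : (1 - cc p ^ (3 * n + 3)) ^ (M n) ≤ Real.exp (-(cc p ^ (3 * n + 3))) ^ (M n) :=
    pow_le_pow_left₀ hx0 h1 _
  refine h2.trans ?_
  rw [← Real.exp_nat_mul]
  apply Real.exp_le_exp.mpr
  have h3 : 1 ≤ cc p * (n + 1) := by
    have h4 : 1 / cc p ≤ (n : ℝ) + 1 := by
      have : (a : ℝ) ≤ n := by exact_mod_cast hn
      linarith
    rw [div_le_iff₀ hc] at h4
    linarith
  have h5 : 1 ≤ (cc p * (n + 1)) ^ (3 * n + 3) := one_le_pow₀ h3
  have h6 : (M n : ℝ) * cc p ^ (3 * n + 3) = (n + 1) * (cc p * (n + 1)) ^ (3 * n + 3) := by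
    unfold M
    push_cast
    rw [show 3 * n + 4 = (3 * n + 3) + 1 by ring, pow_succ, mul_pow]
    ring
  have h7 : (n : ℝ) + 1 ≤ M n * cc p ^ (3 * n + 3) := by
    rw [h6]
    have : 0 ≤ (n : ℝ) + 1 := by positivity
    nlinarith
  nlinarith

theorem ae_good : ∀ᵐ ω ∂φ, ∃ N, ∀ n, N ≤ n → SpOK ω n ∧ LadOK ω n := by
  have := h.1
  set u : ℕ → ℝ := fun n => 2 * (1 - cc p ^ (3 * n + 3)) ^ (M n) with hu
  have hsum : Summable u := (summable_bound hp0 hp1).mul_left 2
  have hc := cc_pos hp0 hp1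
  have hc1 := cc_le (p := p) hp0
  have hu0 : ∀ n, 0 ≤ u n := by
    intro n
    have : 0 ≤ 1 - cc p ^ (3 * n + 3) := by
      have := pow_le_one₀ hc.le hc1 (n := 3 * n + 3); linarith
    positivity
  set B : ℕ → Set (Sym2 Vx → Bool) := fun n => {ω | ¬ (SpOK ω n ∧ LadOK ω n)} with hB
  have hle : ∀ n, φ (B n) ≤ ENNReal.ofReal (u n) := by
    intro n
    have h1 : φ.real (B n) ≤ u n := by
      have h2 : B n ⊆ {ω | ¬ SpOK ω n} ∪ {ω | ¬ LadOK ω n} := by
        intro ω hω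
        by_cases h3 : SpOK ω n
        · right; exact fun h4 => hω ⟨h3, h4⟩
        · left; exact h3
      have h5 := bound_sp hp0 hp1 h n
      have h6 := bound_lad hp0 hp1 h n
      calc φ.real (B n) ≤ φ.real ({ω | ¬ SpOK ω n} ∪ {ω | ¬ LadOK ω n}) := measureReal_mono h2
        _ ≤ φ.real {ω | ¬ SpOK ω n} + φ.real {ω | ¬ LadOK ω n} := measureReal_union_le _ _
        _ ≤ u n := by simp only [hu]; linarith
    rw [measureReal_def] at h1
    exact (ENNReal.le_ofReal_iff_toReal_le (measure_ne_top φ _) (hu0 n)).mpr h1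
  have hfin : ∑' n, φ (B n) ≠ ⊤ := by
    refine ne_top_of_le_ne_top ?_ (ENNReal.tsum_le_tsum hle)
    rw [← ENNReal.ofReal_tsum_of_nonneg hu0 hsum]
    exact ENNReal.ofReal_ne_top
  have hlim := measure_limsup_atTop_eq_zero hfin
  rw [measure_eq_zero_iff_ae_notMem] at hlim
  filter_upwards [hlim] with ω hω
  rw [Filter.limsup_eq_iInf_iSup_of_nat] at hω
  simp only [Set.iSup_eq_iUnion, Set.iInf_eq_iInter, Set.mem_iInter, Set.mem_iUnion, not_forall,
    not_exists] at hω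
  obtain ⟨N, hN⟩ := hω
  refine ⟨N, fun n hn => ?_⟩
  have := hN n hn
  simp only [hB, Set.mem_ofPred_eq, not_not] at this
  exact this

end

end Pool.Agent.X194.FK
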